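import Pool.Agent.H865_cl.Closed
import Pool.Agent.H865_cl.Conn

/-!
# Coarsely affine maps between smooth structures on `S¹ × S³` and `S¹ ×~ S³`

Let `X` be one of the two topological 4-manifolds `S¹ × S³` and `S¹ ×~ S³` (the twisted product, as the unit sphere
bundle of the sum of the Moebius line bundle and a trivial bundle of rank three), and let `M` and `N` be smooth
4-manifolds homeomorphic to `X`. Let `e : M → ℝᵐ` and `j : N → ℝᵏ` be injective immersions (by the embedding theorem
of Nash all Riemannian metrics of `M` and `N` are induced by such maps) and let `g : M → N` be a continuous map with a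
right homotopy inverse, for example a homeomorphism or a homotopy equivalence. Let `S` be a set of scales which
contains arbitrarily small positive numbers. Suppose that at each point `x` at which `g` is not a local diffeomorphism
one of the following conditions holds for `f = j ∘ g`.

* Coarse coordinates: near `x`, on every ball of a small radius `s ∈ S` (for the distance `‖e u - e w‖`), every unit
  linear coordinate of `e` differs by at most `η s`, where `η < 3 π / 16`, from some affine function `ℓ + c` of `f`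
  for which `‖ℓ‖ ‖f u - f y‖ ≤ C s` on the ball with the centre `y`, with some constant `C` independent of the ball.
* Coarse similarity: near `x`, on every ball of a small radius `s ∈ S`, for some factor `κ` depending on the ball, the
  distances `κ ‖f u - f w‖` and `‖e u - e w‖` differ by at most `ε s`, where `ε (√2 + ε / 2) < 3 π / 16` (for example
  `ε ≤ 0.368`).
* Bi-Lipschitz: near `x`, for some factor `κ`, `‖e u - e w‖ ≤ κ ‖f u - f w‖ ≤ K ‖e u - e w‖`, where
  `(K² - 1) / (K² + 1) < 3 π / 16` (for example `K ≤ 1.966`, that is, bi-Lipschitz with the constant `1.402`).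

Then `g` is a uniform limit of diffeomorphisms from `M` onto `N` which agree with `g` outside any given neighbourhood
of the set of the points at which `g` is not a local diffeomorphism. In particular `M` and `N` are diffeomorphic.

The proof. The average of `f` over the balls of radius `s ∈ S` (with a kernel concentrated near the boundary of the
ball), followed by the nearest point retraction onto the submanifold `j(N)`, is a local diffeomorphism near the bad
points, and so is its interpolation with `g`. A local diffeomorphism `M → N` is a covering map; it is homotopic to `g`,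
so it has a right homotopy inverse, and lifting the homotopy gives a section of the covering.
-/

set_option autoImplicit false

open Set Filter Topology Metric Function
open scoped Manifold ContDiff

noncomputable section

namespace Pool.Agent.Results.MP_6db3ee_gt.CoarselyAffine

/-- `ℝ⁴` -/
abbrev R4 : Type := EuclideanSpace ℝ (Fin 4)

/-- the product `S¹ × S³` -/
abbrev Prod13 : Type := Circle × Metric.sphere (0 : R4) 1

/-- the twisted product: the unit sphere bundle of the sum of the Moebius line bundle over the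
circle (the line over `p` consists of the `z` with `z ^ 2 = |z| ^ 2 p`) and a trivial bundle of
rank three -/
abbrev Twisted13 : Type := {p : ℂ × ℂ × EuclideanSpace ℝ (Fin 3) //
  ‖p.1‖ = 1 ∧ p.2.1 ^ 2 = ((‖p.2.1‖ ^ 2 : ℝ) : ℂ) * p.1 ∧ ‖p.2.1‖ ^ 2 + ‖p.2.2‖ ^ 2 = 1}

/-- both spaces are homeomorphic to `S¹ × S³`, or both are homeomorphic to `S¹ ×~ S³` -/
def SameModel (M N : Type) [TopologicalSpace M] [TopologicalSpace N] : Prop :=
  (Nonempty (M ≃ₜ Prod13) ∧ Nonempty (N ≃ₜ Prod13)) ∨ (Nonempty (M ≃ₜ Twisted13) ∧ Nonempty (N ≃ₜ Twisted13))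

/-- the set of scales contains arbitrarily small positive numbers -/
def SmallScales (S : Set ℝ) : Prop := ∀ δ : ℝ, 0 < δ → ∃ s ∈ S, 0 < s ∧ s < δ

section defs

variable {M N : Type} [TopologicalSpace M] [TopologicalSpace N] {m k : ℕ}

/-- `f` is a local diffeomorphism at `x` (of class `C^∞`, with smooth inverse) -/
def LocDiff [ChartedSpace R4 M] [ChartedSpace R4 N] (f : M → N) (x : M) : Prop :=
  IsLocalDiffeomorphAt (𝓡 4) (𝓡 4) ∞ f x

/-- `e` is a smooth immersion at `x`: in a smooth parametrization `A` of a neighbourhood of `x = A 0` (a local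
diffeomorphism at `0`) it is smooth near `0` with an injective derivative at `0`. -/
def IsImmersed [ChartedSpace R4 M] (e : M → EuclideanSpace ℝ (Fin m)) (x : M) : Prop :=
  ∃ A : R4 → M, A 0 = x ∧ LocDiff A 0 ∧
    (∀ᶠ z in 𝓝 (0 : R4), ContDiffAt ℝ ∞ (fun z => e (A z)) z) ∧ Injective (fderiv ℝ (fun z => e (A z)) 0)

/-- `e` is a continuous injective immersion -/
def IsEmb [ChartedSpace R4 M] (e : M → EuclideanSpace ℝ (Fin m)) : Prop :=
  Continuous e ∧ Injective e ∧ ∀ x, IsImmersed e x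

/-- `g` has a right homotopy inverse -/
def HasRightHomotopyInverse (g : C(M, N)) : Prop := ∃ r : C(N, M), (g.comp r).Homotopic (ContinuousMap.id N)

/-- Coarse coordinates: there are a neighbourhood `U` of `x`, `r > 0` and `C` such that for all `y ∈ U`, all `s ∈ S`
with `0 < s < r` and all unit vectors `v` there is an affine function `ℓ + c` such that for the points `u ∈ U` with
`‖e u - e y‖ ≤ s` the linear coordinate `⟪v, e u - e y⟫` differs by at most `η s` from `ℓ (f u) + c` and
`‖ℓ‖ ‖f u - f y‖ ≤ C s`. -/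
def CoarseCoordinates (e : M → EuclideanSpace ℝ (Fin m)) (f : M → EuclideanSpace ℝ (Fin k)) (S : Set ℝ) (η : ℝ)
    (x : M) : Prop :=
  ∃ U ∈ 𝓝 x, ∃ r : ℝ, 0 < r ∧ ∃ C : ℝ, ∀ y ∈ U, ∀ s ∈ S, 0 < s → s < r → ∀ v : EuclideanSpace ℝ (Fin m), ‖v‖ = 1 →
    ∃ (ℓ : EuclideanSpace ℝ (Fin k) →L[ℝ] ℝ) (c : ℝ), ∀ u ∈ U, ‖e u - e y‖ ≤ s →
      |ℓ (f u) + c - inner ℝ v (e u - e y)| ≤ η * s ∧ ‖ℓ‖ * ‖f u - f y‖ ≤ C * s

/-- Coarse similarity: there are a neighbourhood `U` of `x` and `r > 0` such that for all `y ∈ U` and all `s ∈ S` with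
`0 < s < r` there is a factor `κ ≥ 0` such that the distances `κ ‖f u - f w‖` and `‖e u - e w‖` differ by at most
`ε s` for all points `u`, `w ∈ U` with `‖e u - e y‖ ≤ s` and `‖e w - e y‖ ≤ s`. -/
def CoarseSimilarity (e : M → EuclideanSpace ℝ (Fin m)) (f : M → EuclideanSpace ℝ (Fin k)) (S : Set ℝ) (ε : ℝ)
    (x : M) : Prop :=
  ∃ U ∈ 𝓝 x, ∃ r : ℝ, 0 < r ∧ ∀ y ∈ U, ∀ s ∈ S, 0 < s → s < r → ∃ κ : ℝ, 0 ≤ κ ∧ ∀ u ∈ U, ∀ w ∈ U,
    ‖e u - e y‖ ≤ s → ‖e w - e y‖ ≤ s → |κ * ‖f u - f w‖ - ‖e u - e w‖| ≤ ε * s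

/-- Bi-Lipschitz: `‖e u - e w‖ ≤ κ ‖f u - f w‖ ≤ K ‖e u - e w‖` for all `u`, `w` near `x`, for some factor `κ`. -/
def BiLipschitz (e : M → EuclideanSpace ℝ (Fin m)) (f : M → EuclideanSpace ℝ (Fin k)) (K : ℝ) (x : M) : Prop :=
  ∃ U ∈ 𝓝 x, ∃ κ : ℝ, ∀ u ∈ U, ∀ w ∈ U, ‖e u - e w‖ ≤ κ * ‖f u - f w‖ ∧ κ * ‖f u - f w‖ ≤ K * ‖e u - e w‖

/-- one of the three conditions, with constants below the threshold `3 π / 16` -/
def IsCoarselyAffine (e : M → EuclideanSpace ℝ (Fin m)) (f : M → EuclideanSpace ℝ (Fin k)) (S : Set ℝ) (x : M) :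
    Prop :=
  (∃ η : ℝ, η < 3 * Real.pi / 16 ∧ CoarseCoordinates e f S η x) ∨
  (∃ ε : ℝ, 0 ≤ ε ∧ ε * (√2 + ε / 2) < 3 * Real.pi / 16 ∧ CoarseSimilarity e f S ε x) ∨
  ∃ K : ℝ, (K ^ 2 - 1) / (K ^ 2 + 1) < 3 * Real.pi / 16 ∧ BiLipschitz e f K x

end defs

theorem result (M N : Type) [TopologicalSpace M] [TopologicalSpace N]
    [ChartedSpace R4 M] [ChartedSpace R4 N] [IsManifold (𝓡 4) ∞ M] [IsManifold (𝓡 4) ∞ N] (hMN : SameModel M N)
    -- the maps which measure distances in `M` and `N`, and the set of scales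
    (m k : ℕ) (e : M → EuclideanSpace ℝ (Fin m)) (he : IsEmb e) (j : N → EuclideanSpace ℝ (Fin k)) (hj : IsEmb j)
    (S : Set ℝ) (hS : SmallScales S)
    -- the map `g`
    (g : C(M, N)) (hg : HasRightHomotopyInverse g)
    (hc : ∀ x, LocDiff g x ∨ IsCoarselyAffine e (fun x => j (g x)) S x)
    -- a neighbourhood of the set of the bad points
    (O : Set M) (hO : IsOpen O) (hbad : ∀ x, ¬ LocDiff g x → x ∈ O) (ε : ℝ) (hε : 0 < ε) :
    ∃ Φ : Diffeomorph (𝓡 4) (𝓡 4) M N ∞, (∀ x, ‖j (Φ x) - j (g x)‖ < ε) ∧ ∀ x, x ∉ O → Φ x = g x := by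
  obtain ⟨he, hei, he'⟩ := he
  obtain ⟨hj, hji, hj'⟩ := hj
  obtain ⟨r, hr⟩ := hg
  have hM : T2Space M ∧ CompactSpace M ∧ ConnectedSpace M ∧ T2Space N ∧ CompactSpace N := by
    rcases hMN with ⟨⟨a⟩, ⟨b⟩⟩ | ⟨⟨a⟩, ⟨b⟩⟩
    · have := Pool.Agent.H865_cl.p13_conn
      exact ⟨a.symm.t2Space, a.symm.compactSpace, a.symm.surjective.connectedSpace a.symm.continuous,
        b.symm.t2Space, b.symm.compactSpace⟩
    · have := Pool.Agent.H865_cl.t13_conn
      have := Pool.Agent.H865_cl.t13_compact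
      exact ⟨a.symm.t2Space, a.symm.compactSpace, a.symm.surjective.connectedSpace a.symm.continuous,
        b.symm.t2Space, b.symm.compactSpace⟩
  obtain ⟨h1, h2, h3, h4, h5⟩ := hM
  refine Pool.Agent.H865_cl.closed_main 3 m k M N e he hei he' j hj hji hj' g r hr S hS (fun x hx => ?_) O hO hbad ε hε
  rw [Pool.Agent.H865_small.const_four]
  rcases hc x with h | ⟨η, hη, h⟩ | ⟨δ, hδ0, hδ, h⟩ | ⟨K, hK, h⟩
  · exact absurd h hx
  · exact ⟨η, hη, Or.inl h⟩
  · exact ⟨_, hδ, Or.inr (Or.inl ⟨δ, hδ0, le_rfl, h⟩)⟩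
  · exact ⟨_, hK, Or.inr (Or.inr ⟨K, le_rfl, h⟩)⟩

end Pool.Agent.Results.MP_6db3ee_gt.CoarselyAffine
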